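import Mathlib
import Pool.Agent.H.MP_d8fac8_al.Main

set_option autoImplicit false

namespace Pool.Agent.Results.MP_d8fac8_al.Q1

open Pool.Agent.H.MP_d8fac8_al

universe u

theorem result : ¬ AmalgBase.{u} (ℤ × ℤ) := main1

end Pool.Agent.Results.MP_d8fac8_al.Q1
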